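import Pool.Agent.CYG.Def
import Pool.Agent.CYL.B.Def

/-!
# CYL: the start of the induction, `L = l` (all sites are occupied, `q` is constant)
-/

namespace Pool.Agent.CYL

open Pool.Agent.BEX

/-- `b` as a real number -/
noncomputable def bbr : ℝ := Real.sqrt (Real.sqrt 2 * Real.sin (Real.pi / 8) / 2)

theorem bb_eq : bb = (bbr : ℂ) := rfl

theorem bbr_pos : 0 < bbr := by
  have h : 0 < Real.sin (Real.pi / 8) := Real.sin_pos_of_pos_of_lt_pi (by positivity) (by linarith [Real.pi_pos])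
  unfold bbr
  positivity

theorem inl_ne_of_chi {l : ℕ} {m : Sts l l} (h : Chi m) (i : Fin l) : m (Sum.inl i) ≠ Sum.inl i := by
  choose f hf using h
  have hinj : Function.Injective f := by
    intro a b hab
    have h1 : m (Sum.inr a) = m (Sum.inr b) := by rw [hf, hf, hab]
    exact Sum.inr.inj (m.inj h1)
  obtain ⟨j, rfl⟩ := (Finite.injective_iff_surjective.1 hinj) i
  have h2 : m (Sum.inl (f j)) = Sum.inr j := by rw [← hf j, m.inv]
  rw [h2]
  exact Sum.inr_ne_inl

theorem qf_base {l : ℕ} (psi : Sts l l → ℝ) (h1 : ∀ m, ¬ Cls m → psi m = 0) (h2 : ∑ m, psi m = 1)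
    (U : Fin l → ℂ) (u : ℂ) : qf U psi u = ((bbr ^ l : ℝ) : ℂ) := by
  unfold qf
  have h3 : ∀ m : Sts l l, (psi m : ℂ) * Os U u m = ((bbr ^ l : ℝ) : ℂ) * (psi m : ℂ) := by
    intro m
    by_cases h : Cls m
    · have h4 : Os U u m = ((bbr ^ l : ℝ) : ℂ) := by
        unfold Os Oa
        rw [if_pos h.1, Finset.prod_congr rfl (g := fun _ => bb) (fun i _ => if_neg (inl_ne_of_chi h.1 i)),
          Finset.prod_const, Finset.card_univ, Fintype.card_fin, bb_eq]
        push_cast
        rfl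
      rw [h4, mul_comm]
    · rw [h1 m h]
      simp
  rw [Finset.sum_congr rfl fun m _ => h3 m, ← Finset.mul_sum, ← Complex.ofReal_sum, h2]
  simp

/-- all sites are occupied: `q` is constant -/
theorem HB_base {l : ℕ} (psi : Sts l l → ℝ)
    (h1 : ∀ m, ¬ Cls m → psi m = 0) (h2 : ∑ m, psi m = 1) :
    B.HB l 0 (qf (fun _ => 0) psi) := by
  refine ⟨bbr ^ l, Fin.elim0, (pow_pos bbr_pos l).ne', fun a => a.elim0, fun a => a.elim0, fun u => ?_,
    fun a => a.elim0⟩
  rw [qf_base psi h1 h2]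
  simp [B.pr]

/-- the state in which site `i` is joined to infinity `i` -/
def full (l : ℕ) : Sts l l := ⟨Sum.swap, fun i => by simp⟩

/-- A start vector for `L = l`. -/
theorem exists_base {l : ℕ} (_hl : 1 ≤ l) : ∃ psi0 : Sts l l → ℝ, (∀ m, 0 ≤ psi0 m) ∧
    (∀ m, ¬ Cls m → psi0 m = 0) ∧ ∑ m, psi0 m = 1 := by
  refine ⟨Pi.single (full l) 1, fun m => ?_, fun m hm => ?_, ?_⟩
  · by_cases h : m = full l
    · subst h
      simp
    · simp [h]
  · rw [Pi.single_apply, if_neg]
    rintro rfl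
    apply hm
    have e : ∀ i : Fin l, full l (Sum.inl i) = Sum.inr i := fun i => rfl
    refine ⟨fun j => ⟨j, rfl⟩, fun i j k n _ _ _ h4 _ => ?_, fun i k h4 => ?_, ?_⟩
    · rw [e] at h4
      exact absurd h4 (by simp)
    · rw [e] at h4
      exact absurd h4 (by simp)
    · intro j₁ j₂ j₃ h12 h23 a b c ha hb hc
      rw [e] at ha hb hc
      have ha' := Sum.inr_injective ha
      have hb' := Sum.inr_injective hb
      have hc' := Sum.inr_injective hc
      subst ha' hb' hc'
      exact Or.inl ⟨h12, h23⟩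
  · simp

end Pool.Agent.CYL
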