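import Pool.Agent.CYG.Def
import Pool.Agent.CYL.B.Real
import Pool.Agent.CYL.C.Defs

/-!
# CYL, Bridge 2 (B5 of note 3181): from `H(L)` and the T-Q relation to the data of part C (helper17)
-/

namespace Pool.Agent.CYL.Br2

open Filter Topology Finset
open Pool.Agent.CYL.B
open Pool.Agent.BEX

variable {m : ℕ}

theorem lam_eq : (lam : ℂ) = ((la : ℝ) : ℂ) := by
  unfold lam la
  push_cast
  rfl

/-- `q` of product form has parity `(-1)^m`. -/
theorem pr_neg (c : ℝ) {v : Fin m → ℝ} (hv : ∀ j, v (Fin.rev j) = - v j) (u : ℂ) :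
    pr c v (-u) = (-1) ^ m * pr c v u := by
  unfold pr
  have h : ∏ j, Complex.sin (-u - Complex.I * v j) = ∏ j, (-Complex.sin (u - Complex.I * v j)) := by
    rw [← Equiv.prod_comp Fin.revPerm]
    apply Finset.prod_congr rfl
    intro j _
    rw [Fin.revPerm_apply, hv, ← Complex.sin_neg]
    congr 1
    push_cast
    ring
  rw [h, Finset.prod_neg, Finset.card_univ, Fintype.card_fin]
  ring

theorem pr_cont (c : ℝ) (v : Fin m → ℝ) : Continuous (pr c v) := by
  unfold pr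
  exact continuous_const.mul (continuous_finsetProd _ fun j _ => Complex.continuous_sin.comp (by fun_prop))

theorem norm_sin_sq (a y : ℝ) : ‖Complex.sin (a + Complex.I * y)‖ ^ 2 =
    (Real.cosh (2 * y) - Real.cos (2 * a)) / 2 := by
  have hre : (Complex.sin (a + Complex.I * y)).re = Real.sin a * Real.cosh y := by
    rw [mul_comm Complex.I, Complex.sin_add, Complex.sin_mul_I, Complex.cos_mul_I]
    simp [← Complex.ofReal_sin, ← Complex.ofReal_cos, ← Complex.ofReal_sinh, ← Complex.ofReal_cosh]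
  have him : (Complex.sin (a + Complex.I * y)).im = Real.cos a * Real.sinh y := by
    rw [mul_comm Complex.I, Complex.sin_add, Complex.sin_mul_I, Complex.cos_mul_I]
    simp [← Complex.ofReal_sin, ← Complex.ofReal_cos, ← Complex.ofReal_sinh, ← Complex.ofReal_cosh]
  rw [Complex.sq_norm, Complex.normSq_apply, hre, him, Real.cosh_two_mul, Real.cos_two_mul']
  have e1 := Real.cosh_sq y
  have e2 := Real.sin_sq_add_cos_sq a
  have e3 : Real.cos a ^ 2 = 1 - Real.sin a ^ 2 := by linarith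
  have e4 : Real.cos a * Real.sinh y * (Real.cos a * Real.sinh y) = Real.cos a ^ 2 * Real.sinh y ^ 2 := by ring
  rw [e4, e1, e3]
  have e5 : Real.sin a * Real.cosh y * (Real.sin a * Real.cosh y) = Real.sin a ^ 2 * Real.cosh y ^ 2 := by ring
  rw [e5, e1]
  ring

/-- `|sinh x| exp (e0 x) = |sin (2 lam + i x)|` for `x ≠ 0` -/
theorem exp_e0 {x : ℝ} (hx : x ≠ 0) :
    |Real.sinh x| * Real.exp (e0 x) = ‖Complex.sin (((2 * la : ℝ) : ℂ) + Complex.I * x)‖ := by
  have h1 := norm_sin_sq (2 * la) x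
  have e1 : 2 * (2 * la) = Real.pi / 2 := by unfold la; ring
  rw [e1, Real.cos_pi_div_two, sub_zero] at h1
  have h2 : 1 < Real.cosh (2 * x) := Real.one_lt_cosh.2 (by simpa using hx)
  have h3 : Real.exp (e0 x) ^ 2 = Real.cosh (2 * x) / (Real.cosh (2 * x) - 1) := by
    unfold e0
    rw [← Real.exp_nat_mul]
    push_cast
    rw [mul_div_cancel₀ _ (by norm_num : (2 : ℝ) ≠ 0), Real.exp_log (div_pos (by linarith) (by linarith))]
  have h4 : |Real.sinh x| ^ 2 = (Real.cosh (2 * x) - 1) / 2 := by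
    rw [sq_abs, Real.cosh_two_mul, Real.cosh_sq]
    ring
  have h5 : (|Real.sinh x| * Real.exp (e0 x)) ^ 2 = ‖Complex.sin (((2 * la : ℝ) : ℂ) + Complex.I * x)‖ ^ 2 := by
    have h6 : Real.cosh (2 * x) - 1 ≠ 0 := by linarith
    rw [mul_pow, h3, h4, h1]
    field_simp
  exact (sq_eq_sq₀ (by positivity) (by positivity)).1 h5

theorem exp_e0_zero : Real.exp (e0 0) = 1 := by
  unfold e0
  simp

/-- norm of the product form on the imaginary axis -/
theorem norm_pr_I (c : ℝ) (v : Fin m → ℝ) (y : ℝ) :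
    ‖pr c v (Complex.I * y)‖ = |c| * ∏ j, |Real.sinh (y - v j)| := by
  unfold pr
  rw [norm_mul, norm_prod, Complex.norm_real, Real.norm_eq_abs]
  congr 1
  apply Finset.prod_congr rfl
  intro j _
  have h : Complex.I * y - Complex.I * v j = ((y - v j : ℝ) : ℂ) * Complex.I := by push_cast; ring
  rw [h, Complex.sin_mul_I, norm_mul, Complex.norm_I, mul_one, ← Complex.ofReal_sinh, Complex.norm_real,
    Real.norm_eq_abs]

theorem norm_pr_two (c : ℝ) {v : Fin m → ℝ} (hv : ∀ j, v (Fin.rev j) = - v j) :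
    ‖pr c v ((2 * la : ℝ) : ℂ)‖ = |c| * ∏ j, ‖Complex.sin (((2 * la : ℝ) : ℂ) + Complex.I * v j)‖ := by
  unfold pr
  rw [norm_mul, norm_prod, Complex.norm_real, Real.norm_eq_abs]
  congr 1
  rw [← Equiv.prod_comp Fin.revPerm]
  apply Finset.prod_congr rfl
  intro j _
  rw [Fin.revPerm_apply, hv]
  congr 2
  push_cast
  ring

/-- `B(y)` -/
noncomputable def Bt (L : ℕ) (q : ℂ → ℂ) (y : ℝ) : ℂ :=
  Complex.sin (la + Complex.I * y) ^ L * q (la + Complex.I * y) * q (2 * la - Complex.I * y)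

/-- the T-Q relation at `u = lam + i y` -/
theorem two {L l : ℕ} (hL : L = m + l) {t q : ℂ → ℂ} (htq : TQ L l (fun _ => 0) t q)
    (hq : ∀ u, q (-u) = (-1) ^ m * q u) (y : ℝ) :
    q (Complex.I * y) * (t (la + Complex.I * y) * q (-la + Complex.I * y) -
      (-1) ^ l * (Complex.sin (la + Complex.I * y) * Complex.sin (-(Complex.I * y))) ^ L *
        q (-(3 * la) + Complex.I * y)) =
    Complex.sin (2 * la - Complex.I * y) ^ L * (Bt L q (-y) + (-1) ^ m * Bt L q y) := by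
  have h := htq (la + Complex.I * y)
  simp only [lam_eq, Finset.prod_const, Finset.card_univ, Fintype.card_fin, sub_zero] at h
  have e1 : (la : ℂ) + Complex.I * y - la = Complex.I * y := by ring
  have e2 : (la : ℂ) + Complex.I * y - 2 * la = -la + Complex.I * y := by ring
  have e3 : (la : ℂ) + Complex.I * y - 3 * la = -(2 * la - Complex.I * y) := by ring
  have e4 : (la : ℂ) + Complex.I * y + la = 2 * la + Complex.I * y := by ring
  have e5 : (la : ℂ) + Complex.I * y - 4 * la = -(3 * la) + Complex.I * y := by ring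
  have e6 : 2 * (la : ℂ) - (la + Complex.I * y) = la - Complex.I * y := by ring
  have e7 : 3 * (la : ℂ) - (la + Complex.I * y) = 2 * la - Complex.I * y := by ring
  have e8 : (la : ℂ) - (la + Complex.I * y) = -(Complex.I * y) := by ring
  rw [e1, e2, e3, e4, e5, e6, e7, e8, hq] at h
  have e9 : -(la : ℂ) + Complex.I * y = -(la - Complex.I * y) := by ring
  have h10 : q (-la + Complex.I * y) = (-1) ^ m * q (la - Complex.I * y) := by rw [e9, hq]
  rw [h10] at h ⊢
  have hs : ((-1 : ℂ)) ^ (L + l) = (-1) ^ m := by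
    rw [hL, add_assoc, pow_add, ← two_mul, pow_mul]
    norm_num
  rw [hs] at h
  have hsq : ((-1 : ℂ)) ^ m * (-1) ^ m = 1 := neg_one_pow_sq m
  unfold Bt
  have e11 : (la : ℂ) + Complex.I * ((-y : ℝ) : ℂ) = la - Complex.I * y := by push_cast; ring
  have e12 : (2 * la : ℂ) - Complex.I * ((-y : ℝ) : ℂ) = 2 * la + Complex.I * y := by push_cast; ring
  rw [e11, e12]
  simp only [mul_pow] at h ⊢
  linear_combination h + (Complex.sin (la - Complex.I * y) ^ L * Complex.sin (2 * la - Complex.I * y) ^ L *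
    q (2 * la + Complex.I * y) * q (la - Complex.I * y)) * hsq

/-- polar form of `B` -/
theorem Bt_polar (L : ℕ) (c : ℝ) {v : Fin m → ℝ} (hv : ∀ j, v (Fin.rev j) = - v j) (y : ℝ) :
    Bt L (pr c v) y = ((‖Bt L (pr c v) y‖ : ℝ) : ℂ) * Complex.exp (Complex.I * (ZH L v y / 2)) := by
  have s3 := sin_la_pos
  have s4 := sin_two_la_pos
  have pA := sin_polar s3 y
  have eB : pr c v (la + Complex.I * y) =
      c * ∏ j, Complex.sin ((la : ℂ) + Complex.I * ((y - v j : ℝ) : ℂ)) := by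
    unfold pr
    congr 1
    apply Finset.prod_congr rfl
    intro j _
    congr 1; push_cast; ring
  have eC : pr c v (2 * la - Complex.I * y) =
      c * ∏ j, Complex.sin (((2 * la : ℝ) : ℂ) + Complex.I * ((-(y - v j) : ℝ) : ℂ)) := by
    unfold pr
    congr 1
    rw [← Equiv.prod_comp Fin.revPerm]
    apply Finset.prod_congr rfl
    intro j _
    rw [Fin.revPerm_apply, hv]
    congr 1; push_cast; ring
  have pB : ∏ j, Complex.sin ((la : ℂ) + Complex.I * ((y - v j : ℝ) : ℂ)) =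
      ((‖∏ j, Complex.sin ((la : ℂ) + Complex.I * ((y - v j : ℝ) : ℂ))‖ : ℝ) : ℂ) *
        Complex.exp (Complex.I * (((∑ j, th la (y - v j) : ℝ) : ℂ) / 2)) :=
    prod_polar _ _ (fun j => sin_polar s3 (y - v j))
  have pC : ∏ j, Complex.sin (((2 * la : ℝ) : ℂ) + Complex.I * ((-(y - v j) : ℝ) : ℂ)) =
      ((‖∏ j, Complex.sin (((2 * la : ℝ) : ℂ) + Complex.I * ((-(y - v j) : ℝ) : ℂ))‖ : ℝ) : ℂ) *
        Complex.exp (Complex.I * (((∑ j, (th (2 * la) (-(y - v j))) : ℝ) : ℂ) / 2)) :=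
    prod_polar _ _ (fun j => sin_polar s4 (-(y - v j)))
  set PB := ∏ j, Complex.sin ((la : ℂ) + Complex.I * ((y - v j : ℝ) : ℂ)) with hPB
  set PC := ∏ j, Complex.sin (((2 * la : ℝ) : ℂ) + Complex.I * ((-(y - v j) : ℝ) : ℂ)) with hPC
  set A := Complex.sin (la + Complex.I * y) with hA
  have hB : Bt L (pr c v) y = A ^ L * ((c : ℂ) ^ 2 * (PB * PC)) := by
    unfold Bt
    rw [eB, eC]
    ring
  have hnorm : ‖Bt L (pr c v) y‖ = ‖A‖ ^ L * (c ^ 2 * (‖PB‖ * ‖PC‖)) := by
    rw [hB]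
    simp [norm_pow]
  rw [hnorm]
  conv_lhs => rw [hB, pA, pB, pC]
  have hexp : Complex.exp (Complex.I * (ZH L v y / 2)) =
      (Complex.exp (Complex.I * (th la y / 2))) ^ L *
      (Complex.exp (Complex.I * (((∑ j, th la (y - v j) : ℝ) : ℂ) / 2)) *
        Complex.exp (Complex.I * (((∑ j, (th (2 * la) (-(y - v j))) : ℝ) : ℂ) / 2))) := by
    rw [← Complex.exp_nat_mul, ← Complex.exp_add, ← Complex.exp_add]
    congr 1
    unfold ZH B.Th
    simp only [th_neg]
    rw [Finset.sum_sub_distrib, Finset.sum_neg_distrib]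
    push_cast
    ring
  rw [hexp]
  push_cast
  ring

theorem pr_conj (c : ℝ) {v : Fin m → ℝ} (hv : ∀ j, v (Fin.rev j) = - v j) (u : ℂ) :
    (starRingEnd ℂ) (pr c v u) = pr c v ((starRingEnd ℂ) u) := by
  unfold pr
  rw [map_mul, Complex.conj_ofReal, map_prod]
  congr 1
  rw [← Equiv.prod_comp Fin.revPerm]
  apply Finset.prod_congr rfl
  intro j _
  rw [Fin.revPerm_apply, hv, ← Complex.sin_conj]
  congr 1
  simp [Complex.conj_I, Complex.conj_ofReal, sub_eq_add_neg]

theorem Bt_neg (L : ℕ) (c : ℝ) {v : Fin m → ℝ} (hv : ∀ j, v (Fin.rev j) = - v j) (y : ℝ) :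
    Bt L (pr c v) (-y) = (starRingEnd ℂ) (Bt L (pr c v) y) := by
  unfold Bt
  have h2 : (starRingEnd ℂ) 2 = 2 := Complex.conj_ofNat 2
  rw [map_mul, map_mul, map_pow, pr_conj c hv, pr_conj c hv, ← Complex.sin_conj]
  simp only [map_add, map_sub, map_mul, Complex.conj_ofReal, Complex.conj_I, h2]
  push_cast
  have e1 : (la : ℂ) + Complex.I * -y = la + -Complex.I * y := by ring
  have e2 : 2 * (la : ℂ) - Complex.I * -y = 2 * la - -Complex.I * y := by ring
  rw [e1, e2]

/-- odd `m`: `|B(-y) - B(y)| = 2 |B(y)| |sin (Z(y) / 2)|` -/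
theorem norm_odd (L : ℕ) (c : ℝ) {v : Fin m → ℝ} (hv : ∀ j, v (Fin.rev j) = - v j) (y : ℝ) :
    ‖Bt L (pr c v) (-y) - Bt L (pr c v) y‖ = 2 * ‖Bt L (pr c v) y‖ * |Real.sin (ZH L v y / 2)| := by
  have h1 := Bt_polar L c hv y
  have h2 : ∀ z : ℂ, ‖(starRingEnd ℂ) z - z‖ = 2 * |z.im| := by
    intro z
    have : (starRingEnd ℂ) z - z = ((-(2 * z.im) : ℝ) : ℂ) * Complex.I := by
      apply Complex.ext <;> simp
      ring
    rw [this, norm_mul, Complex.norm_I, mul_one, Complex.norm_real, Real.norm_eq_abs, abs_neg, abs_mul]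
    norm_num
  rw [Bt_neg L c hv, h2]
  have h3 : (Bt L (pr c v) y).im = ‖Bt L (pr c v) y‖ * Real.sin (ZH L v y / 2) := by
    have e : Complex.I * ((ZH L v y : ℂ) / 2) = ((ZH L v y / 2 : ℝ) : ℂ) * Complex.I := by push_cast; ring
    rw [e] at h1
    conv_lhs => rw [h1]
    rw [Complex.im_ofReal_mul, Complex.exp_ofReal_mul_I_im]
  rw [h3, abs_mul, abs_of_nonneg (norm_nonneg _)]
  ring

/-- `Ph` in terms of `th` -/
theorem Ph_eq (a x : ℝ) : Ph a x = th a x / (2 * Real.pi) := by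
  unfold Ph th
  have := Real.pi_ne_zero
  field_simp

theorem Th_eq (x : ℝ) : CYL.Th x = - B.Th x / (2 * Real.pi) := by
  unfold CYL.Th B.Th
  rw [Ph_eq, Ph_eq]
  have e1 : Real.pi / 8 = la := rfl
  have e2 : Real.pi / 4 = 2 * la := by unfold la; ring
  rw [e1, e2]
  have := Real.pi_ne_zero
  field_simp
  ring

theorem hasDerivAt_th {a : ℝ} (ha : 0 < Real.sin a) (y : ℝ) : HasDerivAt (th a) (2 * Real.pi * pk a y) y := by
  have h := th_hasDerivAt ha y
  have e : 2 * Real.pi * pk a y = 2 * Real.sin (2 * a) / (Real.cosh (2 * y) - Real.cos (2 * a)) := by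
    unfold pk
    have := Real.pi_ne_zero
    rw [mul_assoc, ← mul_div_assoc Real.pi, mul_div_mul_left _ _ this, mul_div_assoc]
  rw [e]
  exact h

/-- the data of part C -/
noncomputable def mkR {L l : ℕ} (hL : L = m + l) (v : Fin m → ℝ) (h1 : StrictMono v)
    (h2 : ∀ j, v (Fin.rev j) = - v j)
    (h3 : ∀ j : Fin m, ZH L v (v j) = Real.pi * (2 * (j : ℕ) + 1 - m)) : Roots l where
  L := L
  m := m
  hL := hL.symm
  x := v
  mono := h1
  symm := h2
  bethe := by
    intro j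
    have h := h3 j
    unfold ZH at h
    have hp := Real.pi_ne_zero
    have e1 : Real.pi / 8 = la := rfl
    have h3a : ∑ k, CYL.Th (v j - v k) = (∑ k, - B.Th (v j - v k)) / (2 * Real.pi) := by
      rw [Finset.sum_div]
      exact Finset.sum_congr rfl fun k _ => Th_eq _
    rw [Ph_eq, e1]
    rw [h3a, Finset.sum_neg_distrib]
    field_simp
    linarith

theorem hasDerivAt_Th (y : ℝ) : HasDerivAt B.Th (-(2 * Real.pi * K y)) y := by
  have h := (hasDerivAt_th sin_two_la_pos y).sub (hasDerivAt_th sin_la_pos y)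
  have e : 2 * Real.pi * pk (2 * la) y - 2 * Real.pi * pk la y = -(2 * Real.pi * K y) := by
    unfold K
    have e1 : Real.pi / 8 = la := rfl
    have e2 : Real.pi / 4 = 2 * la := by unfold la; ring
    rw [e1, e2]
    ring
  rw [e] at h
  exact h

theorem hasDerivAt_ZH (L : ℕ) (v : Fin m → ℝ) (y : ℝ) :
    HasDerivAt (ZH L v) (2 * Real.pi * ((L : ℝ) * pk (Real.pi / 8) y + ∑ k, K (y - v k))) y := by
  have h1 := (hasDerivAt_th sin_la_pos y).const_mul (L : ℝ)
  have h2 : HasDerivAt (fun x => ∑ j, B.Th (x - v j)) (∑ j, -(2 * Real.pi * K (y - v j))) y := by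
    apply HasDerivAt.fun_sum
    intro j _
    have h3 := (hasDerivAt_Th (y - v j)).comp y ((hasDerivAt_id y).sub_const (v j))
    rw [mul_one] at h3
    exact h3
  have h4 := h1.sub h2
  have e : (L : ℝ) * (2 * Real.pi * pk la y) - ∑ j, -(2 * Real.pi * K (y - v j)) =
      2 * Real.pi * ((L : ℝ) * pk (Real.pi / 8) y + ∑ k, K (y - v k)) := by
    have e1 : Real.pi / 8 = la := rfl
    rw [e1, Finset.sum_neg_distrib, ← Finset.mul_sum]
    ring
  rw [e] at h4
  exact h4

theorem K_ge (x : ℝ) : -(1 / Real.pi) ≤ K x := by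
  have hp := Real.pi_pos
  unfold K pk
  have e1 : 2 * (Real.pi / 8) = Real.pi / 4 := by ring
  have e2 : 2 * (Real.pi / 4) = Real.pi / 2 := by ring
  rw [e1, e2, Real.sin_pi_div_two, Real.cos_pi_div_two, Real.sin_pi_div_four, Real.cos_pi_div_four, sub_zero]
  have hC : 1 ≤ Real.cosh (2 * x) := Real.one_le_cosh _
  have hs : Real.sqrt 2 / 2 < 1 := by
    have : Real.sqrt 2 < 2 := by
      rw [Real.sqrt_lt' (by norm_num)]
      norm_num
    linarith
  have h1 : 0 ≤ Real.sqrt 2 / 2 / (Real.pi * (Real.cosh (2 * x) - Real.sqrt 2 / 2)) := by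
    apply div_nonneg (by positivity)
    apply mul_nonneg hp.le
    linarith
  have h2 : 1 / (Real.pi * Real.cosh (2 * x)) ≤ 1 / Real.pi := by
    apply one_div_le_one_div_of_le hp
    nlinarith
  linarith

theorem pk_zero_ge : 1 / Real.pi ≤ pk (Real.pi / 8) 0 := by
  have hp := Real.pi_pos
  unfold pk
  have e1 : 2 * (Real.pi / 8) = Real.pi / 4 := by ring
  rw [e1, Real.sin_pi_div_four, Real.cos_pi_div_four, mul_zero, Real.cosh_zero]
  have hs : Real.sqrt 2 / 2 < 1 := by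
    have : Real.sqrt 2 < 2 := by
      rw [Real.sqrt_lt' (by norm_num)]
      norm_num
    linarith
  have hs2 : 1 ≤ Real.sqrt 2 := by
    rw [Real.one_le_sqrt]
    norm_num
  rw [div_le_div_iff₀ hp (mul_pos hp (by linarith))]
  nlinarith

theorem dz_pos {L : ℕ} (v : Fin m → ℝ) (h : m < L) (y : ℝ) (hy : y = 0) :
    0 < (L : ℝ) * pk (Real.pi / 8) y + ∑ k, K (y - v k) := by
  subst hy
  have hp := Real.pi_pos
  have h1 : (L : ℝ) * (1 / Real.pi) ≤ (L : ℝ) * pk (Real.pi / 8) 0 :=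
    mul_le_mul_of_nonneg_left pk_zero_ge (Nat.cast_nonneg _)
  have h2 : ∑ k : Fin m, (-(1 / Real.pi)) ≤ ∑ k, K (0 - v k) := Finset.sum_le_sum fun k _ => K_ge _
  rw [Finset.sum_const, Finset.card_univ, Fintype.card_fin, nsmul_eq_mul] at h2
  have h3 : (m : ℝ) < L := by exact_mod_cast h
  have h4 : 0 < 1 / Real.pi := by positivity
  nlinarith

theorem tendsto_quot {f : ℝ → ℝ} {f' : ℝ} (h : HasDerivAt f f' 0) (h0 : f 0 = 0) :
    Tendsto (fun y => |y|⁻¹ * |f y|) (𝓝[≠] 0) (𝓝 |f'|) := by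
  rw [hasDerivAt_iff_tendsto_slope_zero] at h
  refine h.abs.congr fun y => ?_
  rw [zero_add, h0, sub_zero, smul_eq_mul, abs_mul, abs_inv]

theorem ne_of_even (hm : Even m) {v : Fin m → ℝ} (hv : StrictMono v) (hs : ∀ j, v (Fin.rev j) = - v j) (j : Fin m) :
    v j ≠ 0 := by
  intro h
  have h1 : Fin.rev j = j := hv.injective (by rw [hs, h, neg_zero])
  have h2 := congrArg Fin.val h1
  rw [Fin.val_rev] at h2
  obtain ⟨k, hk⟩ := hm
  have := j.2
  omega

theorem exists_odd (hm : ¬ Even m) {v : Fin m → ℝ} (hv : StrictMono v) (hs : ∀ j, v (Fin.rev j) = - v j) :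
    ∃ k, v k = 0 ∧ ∀ j, j ≠ k → v j ≠ 0 := by
  obtain ⟨n, hn⟩ := Nat.not_even_iff_odd.1 hm
  have hk : n < m := by omega
  have h1 : Fin.rev (⟨n, hk⟩ : Fin m) = ⟨n, hk⟩ := by
    apply Fin.ext
    rw [Fin.val_rev]
    simp only
    omega
  have h2 := hs ⟨n, hk⟩
  rw [h1] at h2
  have h3 : v ⟨n, hk⟩ = 0 := by linarith
  exact ⟨_, h3, fun j hj h => hj (hv.injective (h.trans h3.symm))⟩

theorem norm_neg_la (c : ℝ) {v : Fin m → ℝ} (hs : ∀ j, v (Fin.rev j) = - v j) :
    ‖pr c v (-(la : ℂ))‖ = ‖pr c v (la : ℂ)‖ := by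
  rw [pr_neg c hs, norm_mul, norm_pow, norm_neg, norm_one, one_pow, one_mul]

theorem norm_sin_la (a : ℝ) (ha : 0 < Real.sin a) : ‖Complex.sin (a : ℂ)‖ = Real.sin a := by
  rw [← Complex.ofReal_sin, Complex.norm_real, Real.norm_of_nonneg ha.le]

theorem pr_la_ne {c : ℝ} (hc : c ≠ 0) (v : Fin m → ℝ) : 0 < ‖pr c v (la : ℂ)‖ := by
  have h := B.pr_ne_zero hc v sin_la_pos.ne' 0
  rw [Complex.ofReal_zero, mul_zero, add_zero] at h
  exact norm_pos_iff.2 h

theorem norm_Bt_zero (L : ℕ) (q : ℂ → ℂ) : ‖Bt L q 0‖ = Real.sin la ^ L * ‖q la‖ * ‖q ((2 * la : ℝ) : ℂ)‖ := by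
  unfold Bt
  rw [Complex.ofReal_zero, mul_zero, add_zero, sub_zero, norm_mul, norm_mul, norm_pow, norm_sin_la _ sin_la_pos]
  push_cast
  rfl

/-- the case `m` even -/
theorem even_case {L l : ℕ} (hl : 1 ≤ l) (hL : L = m + l) (hm : Even m) {t : ℂ → ℂ} {c : ℝ} (hc : c ≠ 0)
    {v : Fin m → ℝ} (hv : StrictMono v) (hs : ∀ j, v (Fin.rev j) = - v j)
    (htq : TQ L l (fun _ => 0) t (pr c v)) :
    ‖t la‖ = (Real.sin la * Real.sin (2 * la)) ^ L * 2 * ∏ j, Real.exp (e0 (v j)) := by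
  have h := two hL htq (pr_neg c hs) 0
  have hL0 : L ≠ 0 := by omega
  rw [hm.neg_one_pow, one_mul, neg_zero] at h
  rw [Complex.ofReal_zero, mul_zero, add_zero, add_zero, neg_zero, Complex.sin_zero, mul_zero, zero_pow hL0,
    mul_zero, zero_mul, sub_zero, sub_zero] at h
  have h1 := congrArg norm h
  rw [norm_mul, norm_mul, norm_neg_la c hs, norm_mul, norm_pow, ← two_mul, norm_mul, norm_Bt_zero] at h1
  have e2 : (2 * (la : ℂ)) = ((2 * la : ℝ) : ℂ) := by push_cast; rfl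
  rw [e2, norm_sin_la _ sin_two_la_pos, norm_pr_two c hs] at h1
  have h0 := norm_pr_I c v 0
  rw [Complex.ofReal_zero, mul_zero] at h0
  have e3 : ∏ j, |Real.sinh (0 - v j)| = ∏ j, |Real.sinh (v j)| := by
    apply Finset.prod_congr rfl
    intro j _
    rw [zero_sub, Real.sinh_neg, abs_neg]
  rw [h0, e3] at h1
  have e4 : ∏ j, ‖Complex.sin (((2 * la : ℝ) : ℂ) + Complex.I * v j)‖ =
      (∏ j, |Real.sinh (v j)|) * ∏ j, Real.exp (e0 (v j)) := by
    rw [← Finset.prod_mul_distrib]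
    apply Finset.prod_congr rfl
    intro j _
    rw [exp_e0 (ne_of_even hm hv hs j)]
  rw [e4] at h1
  have hP : 0 < ∏ j, |Real.sinh (v j)| := by
    apply Finset.prod_pos
    intro j _
    exact abs_pos.2 (Real.sinh_ne_zero.2 (ne_of_even hm hv hs j))
  have hc' : 0 < |c| := abs_pos.2 hc
  have hq := pr_la_ne hc v
  have n2 : ‖(2 : ℂ)‖ = 2 := by simp
  rw [n2] at h1
  set P := ∏ j, |Real.sinh (v j)|
  set E := ∏ j, Real.exp (e0 (v j))
  have h5 : (|c| * P * ‖pr c v (la : ℂ)‖) * ‖t la‖ =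
      (|c| * P * ‖pr c v (la : ℂ)‖) * ((Real.sin la * Real.sin (2 * la)) ^ L * 2 * E) := by
    rw [mul_pow]
    linear_combination h1
  exact mul_left_cancel₀ (by positivity) h5

theorem th_zero' (L : ℕ) {v : Fin m → ℝ} (hs : ∀ j, v (Fin.rev j) = - v j) : ZH L v 0 = 0 := by
  have h := ZH_neg L hs 0
  rw [neg_zero] at h
  linarith

/-- the case `m` odd -/
theorem odd_case {L l : ℕ} (hl : 1 ≤ l) (hL : L = m + l) (hm : ¬ Even m) {t : ℂ → ℂ} (ht : Continuous t)
    {c : ℝ} (hc : c ≠ 0) {v : Fin m → ℝ} (hv : StrictMono v) (hs : ∀ j, v (Fin.rev j) = - v j)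
    (htq : TQ L l (fun _ => 0) t (pr c v)) :
    ‖t la‖ = (Real.sin la * Real.sin (2 * la)) ^ L *
      (2 * Real.pi * ((L : ℝ) * pk (Real.pi / 8) 0 + ∑ k, K (0 - v k)) * Real.sin (2 * la)) *
        ∏ j, Real.exp (e0 (v j)) := by
  have hL0 : L ≠ 0 := by omega
  have hmL : m < L := by omega
  obtain ⟨k, hk0, hk⟩ := exists_odd hm hv hs
  have hdz := dz_pos v hmL 0 rfl
  set dz : ℝ := (L : ℝ) * pk (Real.pi / 8) 0 + ∑ k, K (0 - v k) with hdzd
  -- the identity of norms
  have key : ∀ y : ℝ, (|c| * (|y|⁻¹ * |Real.sinh y|) * ∏ j ∈ Finset.univ.erase k, |Real.sinh (y - v j)|) *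
      ‖t (la + Complex.I * y) * pr c v (-la + Complex.I * y) -
      (-1) ^ l * (Complex.sin (la + Complex.I * y) * Complex.sin (-(Complex.I * y))) ^ L *
        pr c v (-(3 * la) + Complex.I * y)‖ =
      ‖Complex.sin (2 * la - Complex.I * y)‖ ^ L * (2 * ‖Bt L (pr c v) y‖ * (|y|⁻¹ * |Real.sin (ZH L v y / 2)|)) := by
    intro y
    have h := congrArg norm (two hL htq (pr_neg c hs) y)
    rw [norm_mul, norm_mul, norm_pow, (Nat.not_even_iff_odd.1 hm).neg_one_pow, neg_one_mul, ← sub_eq_add_neg,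
      norm_odd L c hs, norm_pr_I, ← Finset.mul_prod_erase Finset.univ _ (Finset.mem_univ k), hk0, sub_zero] at h
    linear_combination |y|⁻¹ * h
  -- the limits
  have l1 : Tendsto (fun y : ℝ => |y|⁻¹ * |Real.sinh y|) (𝓝[≠] 0) (𝓝 1) := by
    have h := tendsto_quot (Real.hasDerivAt_sinh 0) Real.sinh_zero
    rwa [Real.cosh_zero, abs_one] at h
  have l2 : Tendsto (fun y : ℝ => |y|⁻¹ * |Real.sin (ZH L v y / 2)|) (𝓝[≠] 0) (𝓝 (Real.pi * dz)) := by
    have h0 := th_zero' L hs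
    have h1 := ((hasDerivAt_ZH L v 0).div_const 2).sin
    have h := tendsto_quot h1 (by simp only [h0]; simp)
    rw [h0] at h
    have e : |Real.cos (0 / 2) * (2 * Real.pi * ((L : ℝ) * pk (Real.pi / 8) 0 + ∑ k, K (0 - v k)) / 2)| =
        Real.pi * dz := by
      rw [zero_div, Real.cos_zero, one_mul, ← hdzd, abs_of_pos (by positivity)]
      ring
    rwa [e] at h
  have hpr := pr_cont c v
  have c1 : Continuous fun y : ℝ => ∏ j ∈ Finset.univ.erase k, |Real.sinh (y - v j)| :=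
    continuous_finsetProd _ fun j _ => (Real.continuous_sinh.comp (continuous_id.sub continuous_const)).abs
  have c2 : Continuous fun y : ℝ => ‖t (la + Complex.I * y) * pr c v (-la + Complex.I * y) -
      (-1) ^ l * (Complex.sin (la + Complex.I * y) * Complex.sin (-(Complex.I * y))) ^ L *
        pr c v (-(3 * la) + Complex.I * y)‖ := by
    fun_prop
  have c3 : Continuous fun y : ℝ => ‖Complex.sin (2 * la - Complex.I * y)‖ ^ L := by fun_prop
  have c4 : Continuous fun y : ℝ => 2 * ‖Bt L (pr c v) y‖ := by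
    unfold Bt
    fun_prop
  have L1 := ((tendsto_const_nhds (x := |c|)).mul l1).mul (c1.tendsto 0 |>.mono_left nhdsWithin_le_nhds)
  have L2 := L1.mul (c2.tendsto 0 |>.mono_left nhdsWithin_le_nhds)
  have R1 := (c4.tendsto 0 |>.mono_left nhdsWithin_le_nhds).mul l2
  have R2 := (c3.tendsto 0 |>.mono_left nhdsWithin_le_nhds).mul R1
  have h := tendsto_nhds_unique (L2.congr key) R2
  rw [Complex.ofReal_zero, mul_zero, add_zero, add_zero, neg_zero, Complex.sin_zero, mul_zero, zero_pow hL0,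
    mul_zero, zero_mul, sub_zero, sub_zero, norm_mul, norm_neg_la c hs, norm_Bt_zero] at h
  have e2 : (2 * (la : ℂ)) = ((2 * la : ℝ) : ℂ) := by push_cast; rfl
  rw [e2, norm_sin_la _ sin_two_la_pos, norm_pr_two c hs] at h
  have e3 : ∏ j ∈ Finset.univ.erase k, |Real.sinh (0 - v j)| = ∏ j ∈ Finset.univ.erase k, |Real.sinh (v j)| := by
    apply Finset.prod_congr rfl
    intro j _
    rw [zero_sub, Real.sinh_neg, abs_neg]
  have e4 : ∏ j, ‖Complex.sin (((2 * la : ℝ) : ℂ) + Complex.I * v j)‖ =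
      Real.sin (2 * la) * ((∏ j ∈ Finset.univ.erase k, |Real.sinh (v j)|) * ∏ j, Real.exp (e0 (v j))) := by
    rw [← Finset.mul_prod_erase Finset.univ _ (Finset.mem_univ k),
      ← Finset.mul_prod_erase Finset.univ (fun j => Real.exp (e0 (v j))) (Finset.mem_univ k), hk0, exp_e0_zero, one_mul,
      Complex.ofReal_zero, mul_zero, add_zero, norm_sin_la _ sin_two_la_pos, ← Finset.prod_mul_distrib]
    congr 1
    apply Finset.prod_congr rfl
    intro j hj
    rw [exp_e0 (hk j (Finset.ne_of_mem_erase hj))]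
  rw [e3, e4] at h
  have hP : 0 < ∏ j ∈ Finset.univ.erase k, |Real.sinh (v j)| := by
    apply Finset.prod_pos
    intro j hj
    exact abs_pos.2 (Real.sinh_ne_zero.2 (hk j (Finset.ne_of_mem_erase hj)))
  have hc' : 0 < |c| := abs_pos.2 hc
  have hq := pr_la_ne hc v
  set P := ∏ j ∈ Finset.univ.erase k, |Real.sinh (v j)|
  set E := ∏ j, Real.exp (e0 (v j))
  have h5 : (|c| * P * ‖pr c v (la : ℂ)‖) * ‖t la‖ =
      (|c| * P * ‖pr c v (la : ℂ)‖) * ((Real.sin la * Real.sin (2 * la)) ^ L *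
        (2 * Real.pi * dz * Real.sin (2 * la)) * E) := by
    rw [mul_pow]
    linear_combination h
  exact mul_left_cancel₀ (by positivity) h5

end Pool.Agent.CYL.Br2

namespace Pool.Agent.CYL

open Pool.Agent.BEX

/-- From `H(L)` and the T-Q relation at `u = lam` to the data of part C. -/
theorem bridge2 {L l m : ℕ} (hl : 1 ≤ l) (hL : L = m + l) (q t : ℂ → ℂ)
    (hq : B.HB L m q) (htq : TQ L l (fun _ => 0) t q) (hcont : Continuous t) :
    ∃ r : Roots l, r.L = L ∧ r.m = m ∧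
      Real.exp r.elog = ‖t lam‖ / Real.sin (3 * Real.pi / 8) ^ L := by
  obtain ⟨c, v, hc, h1, h2, h3, h4⟩ := hq
  have hqe : q = B.pr c v := funext h3
  subst hqe
  refine ⟨Br2.mkR hL v h1 h2 h4, rfl, rfl, ?_⟩
  have hpi := Real.pi_pos
  have hmL : m < L := by omega
  have s1 := B.sin_la_pos
  have s2 := B.sin_two_la_pos
  have s3 : 0 < Real.sin (3 * Real.pi / 8) := by
    apply Real.sin_pos_of_pos_of_lt_pi <;> linarith
  have e1 : Real.pi / 8 = B.la := rfl
  have e2 : Real.pi / 4 = 2 * B.la := by unfold B.la; ring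
  have hdz := Br2.dz_pos v hmL 0 rfl
  have hE : Real.exp (∑ j, e0 (v j)) = ∏ j, Real.exp (e0 (v j)) := Real.exp_sum _ _
  have hA : Real.exp ((L : ℝ) * Real.log (Real.sin (Real.pi / 8) * Real.sin (Real.pi / 4) /
      Real.sin (3 * Real.pi / 8))) = (Real.sin B.la * Real.sin (2 * B.la)) ^ L / Real.sin (3 * Real.pi / 8) ^ L := by
    rw [e1, e2, Real.exp_nat_mul, Real.exp_log (by positivity), div_pow]
  show Real.exp ((L : ℝ) * Real.log (Real.sin (Real.pi / 8) * Real.sin (Real.pi / 4) / Real.sin (3 * Real.pi / 8))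
    + (if Even m then Real.log 2 else Real.log (2 * Real.pi * ((L : ℝ) * pk (Real.pi / 8) 0 + ∑ k, K (0 - v k)) *
      Real.sin (Real.pi / 4))) + ∑ j, e0 (v j)) = _
  rw [Real.exp_add, Real.exp_add, hA, hE, Br2.lam_eq]
  by_cases hm : Even m
  · rw [if_pos hm, Real.exp_log (by norm_num), Br2.even_case hl hL hm hc h1 h2 htq]
    ring
  · rw [if_neg hm, Real.exp_log (by rw [e2]; positivity), Br2.odd_case hl hL hm hcont hc h1 h2 htq, e2]
    ring

end Pool.Agent.CYL
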